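import Pool.Agent.Q161.KF.Main

/-!
# The Ky Fan bound for a partial trace fails

For `n = k = 20` take `A = I - 2 a aᵀ` with `a = (4/5) e₀ + (3/5) e₂` and
`B = -(e₀ e₀ᵀ - e₁ e₁ᵀ)/40`.  Then all `σ_i(A) = 1`, `∑ σ_i(R(B)) = 1`, and
`‖L(A,B)‖_(20) ≥ 2.0704`.
-/

open Matrix Finset

namespace Pool.Agent.Results.MP_30f82a_an.FailsInDimTwenty

open Pool.Agent.Q161.KF

/-- There are `n`, Hermitian `A, B` and `1 ≤ k ≤ n` with
`‖L(A,B)‖_(k) > 2 ∑_{i ≤ k} σ_i(A) σ_i(R(B))`; here `n = 20`. -/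
theorem result : ∃ A B : Matrix (Fin 20) (Fin 20) ℂ, A.IsHermitian ∧ B.IsHermitian ∧
    ∃ k, 1 ≤ k ∧ k ≤ 20 ∧ 2 * ∑ i ∈ range k, sv A i * sv (RR B) i < kyFan k (LL A B) := by
  obtain ⟨A, B, hA, hB, h1, h2, h3⟩ := main
  refine ⟨A, B, hA, hB, 20, by norm_num, le_rfl, ?_⟩
  have h4 : ∑ i ∈ range 20, sv A i * sv (RR B) i ≤ kyFan 20 (RR B) :=
    Finset.sum_le_sum fun i _ => by
      have := sv_nonneg (RR B) i
      have := h1 i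
      nlinarith
  linarith

end Pool.Agent.Results.MP_30f82a_an.FailsInDimTwenty
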